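import Mathlib

/-!
# Hilbert newforms and abelian varieties of GL₂-type: data and known facts
-/

set_option autoImplicit false

universe u

open NumberField

namespace Pool.Agent.Q50.ES

/-- The algebraic closure of the rational numbers. -/
abbrev Ω := AlgebraicClosure ℚ

/-- The fields between `ℚ` and its algebraic closure. -/
abbrev Fld := IntermediateField ℚ Ω

/-- The absolute Galois group of `ℚ`. -/
abbrev Γ := Ω ≃ₐ[ℚ] Ω

/-- The Galois group `Gal(Ω/F)`. -/
def Gal (F : Fld) : Set Γ := F.fixingSubgroup

/-- `F` is a totally real number field. -/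
def TotallyReal (F : Fld) : Prop := FiniteDimensional ℚ F ∧ IsTotallyReal F

/-- `F` has even degree over `ℚ`. -/
def EvenDegree (F : Fld) : Prop := Even (Module.finrank ℚ F)

/-- `M` is a Galois extension of `ℚ` with solvable Galois group. -/
def SolvableGalois (M : Fld) : Prop := IsGalois ℚ M ∧ Group.IsSolvable (M ≃ₐ[ℚ] M)

/-- `L` is a finite Galois extension of `F`. -/
def FiniteGalois (F L : Fld) : Prop :=
  F ≤ L ∧ FiniteDimensional ℚ L ∧ ∀ g ∈ Gal F, ∀ x ∈ L, g x ∈ L

/-- The set `S` is contained and dense in `Gal(Ω/F)`. -/
def DenseIn (S : Set Γ) (F : Fld) : Prop :=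
  S ⊆ Gal F ∧ ∀ U : Set Γ, IsOpen U → (U ∩ Gal F).Nonempty → (U ∩ S).Nonempty

/-- Every non-zero prime ideal which divides `N` divides it at least twice. -/
def NoExactDivisor {R : Type} [CommRing R] (N : Ideal R) : Prop :=
  ∀ p : Ideal R, p.IsPrime → p ≠ ⊥ → p ∣ N → p ^ 2 ∣ N

/-- The ideal `N` is the unit ideal. -/
def UnitIdeal {R : Type} [CommRing R] (N : Ideal R) : Prop := N = ⊤

variable (K : Type u) [Field K] [TopologicalSpace K]

/-- The two by two matrices. -/
abbrev Mat := Matrix (Fin 2) (Fin 2) K

variable {K}

/-- `m` is the product of `s` and `t`. -/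
def IsProd (m s t : Mat K) : Prop := m = s * t

/-- `t` is in the span of `S`. -/
def InSpan (S : Set (Mat K)) (t : Mat K) : Prop := t ∈ Submodule.span K S

/-- `t r(h) = r(g h g⁻¹) t`. -/
def Twists (r : Γ → Mat K) (g h : Γ) (t : Mat K) : Prop := t * r h = r (g * h * g⁻¹) * t

/-- `s = P r P⁻¹` on `S`. -/
def ConjOn (S : Set Γ) (r s : Γ → Mat K) : Prop :=
  ∃ P : GL (Fin 2) K, ∀ g ∈ S, s g = (P : Mat K) * r g * ((P⁻¹ : GL (Fin 2) K) : Mat K)

variable (K)

/-- A continuous representation of the Galois group `Gal(Ω/F)` on `K²`: only the values on this group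
matter. -/
structure Rep (F : Fld) where
  /-- the matrices -/
  toFun : Γ → Mat K
  one : toFun 1 = 1
  mul : ∀ g ∈ Gal F, ∀ h ∈ Gal F, IsProd (toFun (g * h)) (toFun g) (toFun h)
  cont : ContinuousOn toFun (Gal F)

variable {K}

/-- The representations `r` of `Gal(Ω/F)` and `s` of `Gal(Ω/F')` become isomorphic on `Gal(Ω/L)`. -/
def Iso (L : Fld) {F F' : Fld} (r : Rep K F) (s : Rep K F') : Prop :=
  ConjOn (Gal L) r.toFun s.toFun

variable (K)

/-- Newforms and abelian varieties; `K` is an algebraic closure of `ℚ_ℓ` for a fixed prime `ℓ`, identified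
with `ℂ` as a field. `AV F E`: the abelian varieties `A` over `F` of dimension `[E : ℚ]` with an action
of the number field `E ⊆ K` up to isogeny; `rep A`: the Galois representation on
`V(A) = V_ℓ(A) ⊗ K` (over `E ⊗ ℚ_ℓ`), of dimension two; `hom A g`, for `g` with `g F = F`: the maps
`V(A) → V(g A) → V(A)`, the first one induced by `g`, the second one by an element of
`Hom_E(g A, A) ⊗ ℚ`. `Form F`: the Hilbert newforms over `F` of parallel weight 2 with trivial
character (none if `F` is not a totally real number field); `level f`, `coeff f`: level and field of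
the coefficients; `gal f`: the Galois representation of `f`; `CM f`: `f` has complex multiplication;
`DS f`: some local component of `f` at a finite place is square-integrable; `Associated f`: `f` has
an associated abelian variety. -/
structure Data where
  /-- abelian varieties with real multiplication -/
  AV : Fld → Subfield K → Type u
  /-- the Galois representation -/
  rep : ∀ {F E}, AV F E → Rep K F
  /-- homomorphisms from the conjugate variety -/
  hom : ∀ {F E}, AV F E → Γ → Set (Mat K)
  /-- newforms -/
  Form : Fld → Type u
  /-- the level -/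
  level : ∀ {F : Fld}, Form F → Ideal (𝓞 F)
  /-- the coefficient field -/
  coeff : ∀ {F}, Form F → Subfield K
  /-- the Galois representation -/
  gal : ∀ {F}, Form F → Rep K F
  /-- complex multiplication -/
  CM : ∀ {F}, Form F → Prop
  /-- a square-integrable component -/
  DS : ∀ {F}, Form F → Prop
  /-- the newform has an associated abelian variety -/
  Associated : ∀ {F}, Form F → Prop

namespace Data

variable {K} (T : Data K)

/-- Known: from `A` with an action of `E` one gets `A ⊗ O_{E'}` with an action of `E' ⊇ E`. -/
def Tensor : Prop :=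
  ∀ (F : Fld) (E E' : Subfield K), E ≤ E' → NumberField E' → ∀ A : T.AV F E,
    ∃ A' : T.AV F E', Iso F (T.rep A) (T.rep A')

/-- Known: `hom A g` is stable under multiplication by `E`. -/
def HomSmul : Prop :=
  ∀ (F : Fld) (E : Subfield K) (A : T.AV F E) (g : Γ), ∀ c ∈ E, ∀ t ∈ T.hom A g,
    c • t ∈ T.hom A g

/-- Known: products of elements of `hom A g` and `hom A h` are in `hom A (g h)`. -/
def HomMul : Prop :=
  ∀ (F L : Fld) (E : Subfield K) (A : T.AV L E), FiniteGalois F L →
    ∀ g ∈ Gal F, ∀ h ∈ Gal F, ∀ s ∈ T.hom A g, ∀ t ∈ T.hom A h, ∀ m, IsProd m s t →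
      m ∈ T.hom A (g * h)

/-- Known: for `g` in `Gal(Ω/F)` and `A` over `F` the action of `g` is in `hom A g`. -/
def HomSelf : Prop :=
  ∀ (F : Fld) (E : Subfield K) (A : T.AV F E), ∀ g ∈ Gal F, (T.rep A).toFun g ∈ T.hom A g

/-- Known (Faltings, for `Hom(g A, A)`): let `L` be a finite Galois extension of `F`, `A` over `L`, `g` in
`Gal(Ω/F)`. A matrix `t` is in the span of `hom A g` if and only if it gives a map `V(g A) → V(A)`
which commutes with `Gal(Ω/L)`. -/
def Faltings : Prop :=
  ∀ (F L : Fld) (E : Subfield K) (A : T.AV L E), FiniteGalois F L → ∀ g ∈ Gal F, ∀ t,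
    InSpan (T.hom A g) t ↔ ∀ h ∈ Gal L, Twists (T.rep A).toFun g h t

/-- Known (Weil): if the action of `Gal(Ω/L)` on `V(A)` is extended to `Gal(Ω/F)` by elements of
`hom A g`, the variety `A` comes, up to isogeny, from one over `F`. -/
def Descent : Prop :=
  ∀ (F L : Fld) (E : Subfield K) (A : T.AV L E) (r : Rep K F), FiniteGalois F L →
    (∀ h ∈ Gal L, r.toFun h = (T.rep A).toFun h) → (∀ g ∈ Gal F, r.toFun g ∈ T.hom A g) →
    ∃ B : T.AV F E, Iso F r (T.rep B)

/-- Known facts on abelian varieties. -/
structure VarietyFacts : Prop where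
  tensor : T.Tensor
  smul : T.HomSmul
  mul : T.HomMul
  self : T.HomSelf
  faltings : T.Faltings
  descent : T.Descent

/-- Known (Ribet, Momose, Taylor): if `f` has no complex multiplication, the restriction of its Galois
representation to every open subgroup is absolutely irreducible. -/
def Irreducible : Prop :=
  ∀ (F : Fld) (f : T.Form F), ¬ T.CM f → ∀ L, FiniteGalois F L →
    ∀ t, InSpan {t | ∃ h ∈ Gal L, t = (T.gal f).toFun h} t

/-- Known (Chebotarev, Weil): for `f` over `F` and `A` over the finite Galois extension `L` of `F`, with an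
action of `E ⊇ coeff f`, there is a dense set of Frobenius elements `g` in `Gal(Ω/F)`, for which the
trace of `g` on the representation of `f`, and the traces of the elements of `hom A g` (endomorphisms
of the reduction of `A`) lie in `E`. -/
def Frobenius : Prop :=
  ∀ (F L : Fld) (f : T.Form F) (E : Subfield K) (A : T.AV L E), T.coeff f ≤ E →
    FiniteGalois F L → ∃ S : Set Γ, DenseIn S F ∧
      ∀ g ∈ S, ((T.gal f).toFun g).trace ∈ E ∧ ∀ t ∈ T.hom A g, t.trace ∈ E

/-- Known facts on newforms and their Galois representations. `number`: the coefficients generate a number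
field (Shimura). `known`: the conjecture holds for forms with complex multiplication (Shimura,
Casselman) and for forms with a square-integrable component at a finite place (Zhang, Carayol:
Shimura curves). `associated` (Faltings, Néron-Ogg-Shafarevich, local-global compatibility): `f` has
an associated abelian variety if and only if `gal f ≅ V(A)` for some `A` over `F` with an action of
`coeff f`. -/
structure FormFacts : Prop where
  number : ∀ {F : Fld} (f : T.Form F), NumberField (T.coeff f)
  span : T.Irreducible
  frobenius : T.Frobenius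
  known : ∀ {F : Fld} (f : T.Form F), TotallyReal F → T.CM f ∨ T.DS f → T.Associated f
  associated : ∀ {F : Fld} (f : T.Form F), TotallyReal F →
    (T.Associated f ↔ ∃ A : T.AV F (T.coeff f), Iso F (T.gal f) (T.rep A))

/-- The form `g` over `L` is the base change of the form `f` over `F`; it has level one and no complex
multiplication. -/
def UnramifiedBaseChange {F L : Fld} (f : T.Form F) (g : T.Form L) : Prop :=
  UnitIdeal (T.level g) ∧ ¬ T.CM g ∧ T.coeff g ≤ T.coeff f ∧ Iso L (T.gal f) (T.gal g)

/-- Solvable base change (Langlands, Arthur-Clozel): let `f` be a newform over `F` without complex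
multiplication whose components at all finite places are principal series. For every totally real Galois
extension `M₀` of `ℚ` with solvable Galois group there is a totally real solvable extension `L`
of `F` which contains `M₀` such that the base change of `f` to `L` has level one. -/
def BaseChange : Prop :=
  ∀ (F M₀ : Fld), TotallyReal F → EvenDegree F → TotallyReal M₀ → SolvableGalois M₀ →
    ∀ f : T.Form F, ¬ T.CM f → ¬ T.DS f →
    ∃ L, FiniteGalois F L ∧ TotallyReal L ∧ EvenDegree L ∧ M₀ ≤ L ∧
      ∃ g : T.Form L, T.UnramifiedBaseChange f g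

/-- The known facts. -/
structure Facts : Prop extends T.VarietyFacts, T.FormFacts where
  base : T.BaseChange

end Data

end Pool.Agent.Q50.ES
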