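import Pool.Agent.Q50.ES.Defs

/-!
# Descent of abelian varieties attached to newforms
-/

set_option autoImplicit false
set_option maxHeartbeats 4000000
set_option synthInstance.maxHeartbeats 400000
set_option linter.unusedSectionVars false

universe u

open NumberField Matrix

namespace Pool.Agent.Q50.ES

theorem gal_mul {F : Fld} {g h : Γ} (hg : g ∈ Gal F) (hh : h ∈ Gal F) : g * h ∈ Gal F :=
  F.fixingSubgroup.mul_mem hg hh

theorem gal_inv {F : Fld} {g : Γ} (hg : g ∈ Gal F) : g⁻¹ ∈ Gal F :=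
  F.fixingSubgroup.inv_mem hg

theorem fix_le {F L : Fld} (h : F ≤ L) : Gal L ⊆ Gal F :=
  IntermediateField.fixingSubgroup_antitone h

theorem conj_mem {F L : Fld} (h : FiniteGalois F L) {g : Γ} (hg : g ∈ Gal F) {x : Γ}
    (hx : x ∈ Gal L) : g * x * g⁻¹ ∈ Gal L := by
  have hx' : x ∈ L.fixingSubgroup := hx
  change g * x * g⁻¹ ∈ L.fixingSubgroup
  rw [IntermediateField.mem_fixingSubgroup_iff] at hx' ⊢
  intro y hy
  have h1 : g⁻¹ y ∈ L := h.2.2 _ (gal_inv hg) y hy
  change g (x (g⁻¹ y)) = y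
  rw [hx' _ h1]
  change (g * g⁻¹) y = y
  rw [mul_inv_cancel]
  rfl

variable {K : Type u} [Field K] [TopologicalSpace K] [IsTopologicalRing K] [T1Space K]

theorem Rep.map_mul {F : Fld} (r : Rep K F) {g h : Γ} (hg : g ∈ Gal F) (hh : h ∈ Gal F) :
    r.toFun (g * h) = r.toFun g * r.toFun h := r.mul g hg h hh

theorem unit_mul_inv (P : GL (Fin 2) K) :
    (P : Mat K) * ((P⁻¹ : GL (Fin 2) K) : Mat K) = 1 := by
  rw [← Units.val_mul, mul_inv_cancel, Units.val_one]

theorem inv_mul_unit (P : GL (Fin 2) K) :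
    ((P⁻¹ : GL (Fin 2) K) : Mat K) * (P : Mat K) = 1 := by
  rw [← Units.val_mul, inv_mul_cancel, Units.val_one]

theorem ConjOn.trans {S : Set Γ} {r s t : Γ → Mat K} (h : ConjOn S r s) (h' : ConjOn S s t) :
    ConjOn S r t := by
  obtain ⟨P, hP⟩ := h
  obtain ⟨Q, hQ⟩ := h'
  refine ⟨Q * P, fun g hg => ?_⟩
  rw [hQ g hg, hP g hg, _root_.mul_inv_rev]
  simp only [Units.val_mul, mul_assoc]

theorem Iso.trans {L F F' F'' : Fld} {r : Rep K F} {s : Rep K F'} {t : Rep K F''}
    (h : Iso L r s) (h' : Iso L s t) : Iso L r t := ConjOn.trans h h'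

/-- The conjugate representation. -/
noncomputable def Rep.conj {F : Fld} (r : Rep K F) (P : GL (Fin 2) K) : Rep K F where
  toFun g := (P : Mat K) * r.toFun g * ((P⁻¹ : GL (Fin 2) K) : Mat K)
  one := by rw [r.one, mul_one, unit_mul_inv]
  mul g hg h hh := by
    unfold IsProd
    rw [r.map_mul hg hh]
    calc (P : Mat K) * (r.toFun g * r.toFun h) * ((P⁻¹ : GL (Fin 2) K) : Mat K)
        = (P : Mat K) * r.toFun g * 1 * r.toFun h * ((P⁻¹ : GL (Fin 2) K) : Mat K) := by
          simp only [mul_assoc, mul_one]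
      _ = _ := by
          rw [← inv_mul_unit P]
          simp only [mul_assoc]
  cont := by
    have := r.cont
    fun_prop

theorem Rep.conj_iso {F : Fld} (r : Rep K F) (P : GL (Fin 2) K) : Iso F r (r.conj P) :=
  ⟨P, fun _ _ => rfl⟩

theorem Rep.inv {F : Fld} (r : Rep K F) {g : Γ} (hg : g ∈ Gal F) :
    r.toFun g * r.toFun g⁻¹ = 1 ∧ r.toFun g⁻¹ * r.toFun g = 1 := by
  constructor
  · rw [← r.map_mul hg (gal_inv hg), mul_inv_cancel, r.one]
  · rw [← r.map_mul (gal_inv hg) hg, inv_mul_cancel, r.one]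

theorem trace_conj (P : GL (Fin 2) K) (t : Mat K) :
    ((P : Mat K) * t * ((P⁻¹ : GL (Fin 2) K) : Mat K)).trace = t.trace := by
  rw [trace_mul_comm, ← mul_assoc, inv_mul_unit, one_mul]

namespace Data

variable {T : Data K}

/-- A matrix which commutes with a spanning set is scalar. -/
theorem scalar_of_comm {S : Set (Mat K)} (hS : ∀ m, m ∈ Submodule.span K S)
    {t : Mat K} (ht : ∀ s ∈ S, t * s = s * t) :
    ∃ c : K, t = c • (1 : Mat K) := by
  have h : ∀ m : Mat K, t * m = m * t := by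
    intro m
    have hm := hS m
    induction hm using Submodule.span_induction with
    | mem x hx => exact ht x hx
    | zero => simp
    | add x y _ _ hx hy => rw [mul_add, add_mul, hx, hy]
    | smul c x _ hx => rw [mul_smul_comm, hx, smul_mul_assoc]
  have h1 := h !![1, 0; 0, 0]
  have h2 := h !![0, 1; 0, 0]
  refine ⟨t 0 0, ?_⟩
  have e1 := congrFun (congrFun h1 0) 1
  have e2 := congrFun (congrFun h1 1) 0
  have e3 := congrFun (congrFun h2 0) 1
  simp [Matrix.mul_apply, Fin.sum_univ_two] at e1 e2 e3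
  ext i j
  fin_cases i <;> fin_cases j
  · simp
  · change t 0 1 = t 0 0 * (1 : Mat K) 0 1
    rw [← e1, Matrix.one_apply_ne (by decide), mul_zero]
  · change t 1 0 = t 0 0 * (1 : Mat K) 1 0
    rw [e2, Matrix.one_apply_ne (by decide), mul_zero]
  · change t 1 1 = t 0 0 * (1 : Mat K) 1 1
    rw [e3, Matrix.one_apply_eq, mul_one]

/-- The span of the values is stable under conjugation of the representation. -/
theorem span_conj {S : Set Γ} {r : Γ → Mat K} (P : GL (Fin 2) K)
    (h : ∀ t, t ∈ Submodule.span K {t | ∃ h ∈ S, t = r h}) (m : Mat K) :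
    m ∈ Submodule.span K
      {t | ∃ h ∈ S, t = (P : Mat K) * r h * ((P⁻¹ : GL (Fin 2) K) : Mat K)} := by
  have key : ∀ x ∈ Submodule.span K {t | ∃ h ∈ S, t = r h},
      (P : Mat K) * x * ((P⁻¹ : GL (Fin 2) K) : Mat K) ∈ Submodule.span K
        {t | ∃ h ∈ S, t = (P : Mat K) * r h * ((P⁻¹ : GL (Fin 2) K) : Mat K)} := by
    intro x hx
    induction hx using Submodule.span_induction with
    | mem x hx =>
      obtain ⟨h, hh, rfl⟩ := hx
      exact Submodule.subset_span ⟨h, hh, rfl⟩
    | zero => simp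
    | add x y _ _ hx hy =>
      rw [mul_add, add_mul]
      exact Submodule.add_mem _ hx hy
    | smul c x _ hx =>
      rw [mul_smul_comm, smul_mul_assoc]
      exact Submodule.smul_mem _ c hx
  have := key _ (h (((P⁻¹ : GL (Fin 2) K) : Mat K) * m * (P : Mat K)))
  have e : (P : Mat K) * (((P⁻¹ : GL (Fin 2) K) : Mat K) * m * (P : Mat K)) *
      ((P⁻¹ : GL (Fin 2) K) : Mat K) =
      ((P : Mat K) * ((P⁻¹ : GL (Fin 2) K) : Mat K)) * m *
      ((P : Mat K) * ((P⁻¹ : GL (Fin 2) K) : Mat K)) := by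
    simp only [mul_assoc]
  rw [e, unit_mul_inv, one_mul, mul_one] at this
  exact this

/-- **Descent.** If an abelian variety over a finite Galois extension `L` of `F` with an action of
`E ⊇ coeff f` is attached to the restriction of the newform `f`, one over `F` is attached to `f`. -/
theorem descend (hV : T.VarietyFacts) (hI : T.Irreducible) (hFr : T.Frobenius) {F L : Fld}
    (hFL : FiniteGalois F L) (f : T.Form F) (hf : ¬ T.CM f) {E : Subfield K} (hE : T.coeff f ≤ E)
    (A : T.AV L E) (hA : Iso L (T.gal f) (T.rep A)) :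
    ∃ B : T.AV F E, Iso F (T.gal f) (T.rep B) := by
  obtain ⟨P, hP⟩ := hA
  set r : Rep K F := (T.gal f).conj P with hr
  have hle := fix_le hFL.1
  have hrA : ∀ h ∈ Gal L, r.toFun h = (T.rep A).toFun h := fun h hh => (hP h hh).symm
  -- the span of the values of `r` on the subgroup
  have hspan' : ∀ m, m ∈ Submodule.span K {t | ∃ h ∈ Gal L, t = r.toFun h} :=
    span_conj P (hI F f hf L hFL)
  have htwist : ∀ g ∈ Gal F, ∀ h ∈ Gal L,
      r.toFun g * (T.rep A).toFun h = (T.rep A).toFun (g * h * g⁻¹) * r.toFun g := by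
    intro g hg h hh
    rw [← hrA h hh, ← hrA _ (conj_mem hFL hg hh)]
    rw [← r.map_mul hg (hle hh), ← r.map_mul (hle (conj_mem hFL hg hh)) hg]
    congr 1
    group
  -- some non-zero multiple of `r g` is in `hom A g`
  have hc : ∀ g ∈ Gal F, ∃ c : K, c ≠ 0 ∧ c • r.toFun g ∈ T.hom A g := by
    intro g hg
    have hinv := r.inv hg
    have hne : r.toFun g ≠ 0 := by
      intro h0
      rw [h0, zero_mul] at hinv
      exact one_ne_zero hinv.1.symm
    by_contra hcon
    push Not at hcon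
    have hsc : ∀ t ∈ T.hom A g, t = 0 := by
      intro t ht
      have h1 := (hV.faltings F L _ A hFL g hg t).1 (Submodule.subset_span ht)
      obtain ⟨c, hc⟩ := scalar_of_comm hspan' (t := r.toFun g⁻¹ * t) (by
        rintro s ⟨h, hh, rfl⟩
        have h2 := htwist g hg h hh
        have h1h : t * (T.rep A).toFun h = (T.rep A).toFun (g * h * g⁻¹) * t := h1 h hh
        rw [Matrix.mul_assoc, hrA h hh, h1h, ← Matrix.mul_assoc]
        have h3 : r.toFun g⁻¹ * (T.rep A).toFun (g * h * g⁻¹) =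
            (T.rep A).toFun h * r.toFun g⁻¹ := by
          calc r.toFun g⁻¹ * (T.rep A).toFun (g * h * g⁻¹)
              = r.toFun g⁻¹ * ((T.rep A).toFun (g * h * g⁻¹) * r.toFun g) * r.toFun g⁻¹ := by
                rw [Matrix.mul_assoc (r.toFun g⁻¹), Matrix.mul_assoc _ (r.toFun g), hinv.1,
                  Matrix.mul_one]
            _ = _ := by
                rw [← h2, ← Matrix.mul_assoc, hinv.2, Matrix.one_mul]
        rw [h3, Matrix.mul_assoc])
      have h4 : t = c • r.toFun g := by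
        calc t = r.toFun g * (r.toFun g⁻¹ * t) := by rw [← mul_assoc, hinv.1, one_mul]
          _ = c • r.toFun g := by rw [hc, mul_smul_comm, mul_one]
      by_cases hc0 : c = 0
      · rw [h4, hc0, zero_smul]
      · exact absurd (h4 ▸ ht) (hcon c hc0)
    have h5 : r.toFun g ∈ Submodule.span K (T.hom A g) :=
      (hV.faltings F L _ A hFL g hg _).2 fun h hh => htwist g hg h hh
    have h6 : Submodule.span K (T.hom A g) ≤ ⊥ := by
      rw [Submodule.span_le]
      intro t ht
      exact hsc t ht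
    exact hne ((Submodule.mem_bot K).1 (h6 h5))
  obtain ⟨S, ⟨hSF, hdense⟩, hStr⟩ := hFr F L f E A hE hFL
  have htr : ∀ g, (r.toFun g).trace = ((T.gal f).toFun g).trace := fun g => trace_conj P _
  have hmem : ∀ g ∈ Gal F, r.toFun g ∈ T.hom A g := by
    intro g hg
    obtain ⟨c, hc0, hcg⟩ := hc g hg
    have hinv := r.inv hg
    -- an element of the coset with non-zero trace
    have hex : ∃ h ∈ Gal L, (r.toFun (g * h)).trace ≠ 0 := by
      by_contra hcon
      push Not at hcon
      have h1 : ∀ m : Mat K, (r.toFun g * m).trace = 0 := by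
        intro m
        have hm := hspan' m
        induction hm using Submodule.span_induction with
        | mem x hx =>
          obtain ⟨h, hh, rfl⟩ := hx
          rw [← r.map_mul hg (hle hh)]
          exact hcon h hh
        | zero => simp
        | add x y _ _ hx hy => rw [mul_add, trace_add, hx, hy, add_zero]
        | smul c x _ hx => rw [mul_smul_comm, trace_smul, hx, smul_zero]
      have h2 := h1 (r.toFun g⁻¹ * !![1, 0; 0, 0])
      rw [← mul_assoc, hinv.1, one_mul, trace_fin_two] at h2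
      simp at h2
    obtain ⟨h₀, hh₀, hne₀⟩ := hex
    -- the open set
    have hopen : ∃ U : Set Γ, IsOpen U ∧ U ∩ Gal F =
        {x | x ∈ Gal F ∧ g⁻¹ * x ∈ Gal L ∧ (r.toFun x).trace ≠ 0} := by
      have hcont : ContinuousOn (fun x => (r.toFun x).trace) (Gal F) := by
        have := r.cont
        fun_prop
      obtain ⟨U, hU, hUe⟩ := (continuousOn_iff'.1 hcont) {y | y ≠ 0} isOpen_ne
      have hLo : IsOpen (Gal L) := by
        have := hFL.2.1
        exact IntermediateField.fixingSubgroup_isOpen L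
      refine ⟨U ∩ (fun x => g⁻¹ * x) ⁻¹' (Gal L),
        hU.inter (hLo.preimage (continuous_const.mul continuous_id)), ?_⟩
      ext x
      have := Set.ext_iff.1 hUe x
      simp only [Set.mem_inter_iff, Set.mem_preimage] at this ⊢
      constructor
      · rintro ⟨⟨h1, h2⟩, h3⟩
        exact ⟨h3, h2, (this.2 ⟨h1, h3⟩).1⟩
      · rintro ⟨h1, h2, h3⟩
        exact ⟨⟨(this.1 ⟨h3, h1⟩).1, h2⟩, h1⟩
    obtain ⟨U, hU, hUe⟩ := hopen
    obtain ⟨x, hxU, hxS⟩ := hdense U hU (by
      rw [hUe]
      refine ⟨g * h₀, gal_mul hg (hle hh₀), ?_, hne₀⟩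
      rw [inv_mul_cancel_left]
      exact hh₀)
    have hx : x ∈ U ∩ Gal F := ⟨hxU, hSF hxS⟩
    rw [hUe] at hx
    obtain ⟨hxF, hxL, hxt⟩ := hx
    -- the trace
    have h4 : c • r.toFun x ∈ T.hom A x := by
      have h5 := hV.mul F L _ A hFL g hg _ (hle hxL) _ hcg _ (hV.self L _ A _ hxL) _ rfl
      rw [← hrA _ hxL, smul_mul_assoc, ← r.map_mul hg (hle hxL), mul_inv_cancel_left] at h5
      exact h5
    have h5 := (hStr x hxS).2 _ h4
    rw [trace_smul, smul_eq_mul, htr x] at h5
    have h6 := (hStr x hxS).1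
    have h7 : ((T.gal f).toFun x).trace ≠ 0 := by
      rw [← htr x]
      exact hxt
    have h8 : c ∈ E := by
      have := E.mul_mem h5 (E.inv_mem h6)
      rwa [mul_assoc, mul_inv_cancel₀ h7, mul_one] at this
    have h9 := hV.smul L E A g c⁻¹ (E.inv_mem h8) _ hcg
    rwa [smul_smul, inv_mul_cancel₀ hc0, one_smul] at h9
  obtain ⟨B, hB⟩ := hV.descent F L _ A r hFL hrA hmem
  exact ⟨B, ((T.gal f).conj_iso P).trans hB⟩

/-- **Main theorem.** -/
theorem level_one (hT : T.Facts) {M₀ : Fld} (hM : TotallyReal M₀) (hG : SolvableGalois M₀) :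
    (∀ F, TotallyReal F → EvenDegree F → ∀ f : T.Form F,
        NoExactDivisor (T.level f) → T.Associated f) ↔
      ∀ F, TotallyReal F → EvenDegree F → M₀ ≤ F → ∀ f : T.Form F,
        UnitIdeal (T.level f) → ¬ T.CM f → T.Associated f := by
  constructor
  · intro h F hF hF2 _ f hf _
    refine h F hF hF2 f fun p hp _ hpd => ?_
    exfalso
    have hf' : T.level f = ⊤ := hf
    rw [hf'] at hpd
    exact hp.ne_top (top_le_iff.1 (Ideal.le_of_dvd hpd))
  · intro h F hF hF2 f _
    by_cases hCM : T.CM f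
    · exact hT.known f hF (Or.inl hCM)
    by_cases hDS : T.DS f
    · exact hT.known f hF (Or.inr hDS)
    obtain ⟨L, hFL, hL, hL2, hML, g, hg, hgCM, hgf, hiso⟩ :=
      hT.base F M₀ hF hF2 hM hG f hCM hDS
    obtain ⟨A, hA⟩ := (hT.associated g hL).1 (h L hL hL2 hML g hg hgCM)
    obtain ⟨A', hA'⟩ := hT.tensor L _ _ hgf (hT.number f) A
    obtain ⟨B, hB⟩ := descend hT.toVarietyFacts hT.span hT.frobenius hFL f hCM le_rfl A'
      ((hiso.trans hA).trans hA')
    exact (hT.associated f hF).2 ⟨B, hB⟩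

end Data

end Pool.Agent.Q50.ES
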