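import Pool.Agent.Q50.ES.Defs

/-!
# Newforms and abelian varieties whose Frobenius traces agree on a set of places of positive density
-/

set_option autoImplicit false

universe u

open NumberField

namespace Pool.Agent.Q50.ES

/-- Every non-zero prime ideal divides `N` exactly an even number of times. -/
def EvenLevel {R : Type} [CommRing R] (N : Ideal R) : Prop :=
  ∀ p : Ideal R, p.IsPrime → p ≠ ⊥ → ∀ k : ℕ, p ^ (2 * k + 1) ∣ N → p ^ (2 * k + 2) ∣ N

/-- The set `S` has positive upper density, with respect to `norm`. -/
def PositiveUpperDensity {X : Type} (norm : X → ℕ) (S : Set X) : Prop :=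
  ∃ δ : ℝ, 0 < δ ∧ ∃ᶠ x : ℕ in Filter.atTop,
    δ * ({w | norm w ≤ x}.ncard : ℝ) ≤ ((S ∩ {w | norm w ≤ x}).ncard : ℝ)

variable (K : Type u) [Field K] [TopologicalSpace K]

/-- Newforms, abelian varieties and places. `place L`: the finite places of the number field `L`;
`norm w`: the number of elements of the residue field of `w`; `frob w`: a Frobenius element of `w` in
`Gal(Ω/L)`. -/
structure PData extends Data K where
  /-- the finite places -/
  place : Fld → Type
  /-- the norm -/
  norm : ∀ {L}, place L → ℕ
  /-- a Frobenius element -/
  frob : ∀ {L}, place L → Γ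

namespace PData

variable {K} (T : PData K)

/-- The finite places of `L` whose Frobenius elements have the same trace on the representation of the
newform `f` over `F` and on `V(A)`, for `A` over `L`. -/
def Agree {F L : Fld} {E : Subfield K} (f : T.Form F) (A : T.AV L E) : Set (T.place L) :=
  {w | ((T.gal f).toFun (T.frob w)).trace = ((T.rep A).toFun (T.frob w)).trace}

/-- There are a finite Galois extension `L` of `F`, a number field `E` which contains the coefficients of
`f` and an abelian variety over `L` of dimension `[E : ℚ]` with an action of `E` up to isogeny, with the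
same Frobenius traces as `f` for a set of places of `L` of positive upper density. -/
def Approximated {F : Fld} (f : T.Form F) : Prop :=
  ∃ L, FiniteGalois F L ∧ ∃ E : Subfield K, NumberField E ∧ T.coeff f ≤ E ∧
    ∃ A : T.AV L E, PositiveUpperDensity T.norm (T.Agree f A)

/-- Known: abelian varieties over `L` are abelian varieties over `L' ⊇ L`. -/
def Restrict : Prop :=
  ∀ (L L' : Fld) (E : Subfield K) (A : T.AV L E), L ≤ L' →
    ∃ A' : T.AV L' E, Iso L' (T.rep A) (T.rep A')

/-- Known (Shimura, Ribet, Faltings; the Schur index is one because of the complex conjugations): if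
`V(B) ≅ gal f` for an abelian variety `B` over the totally real field `F` with an action of
`E ⊇ coeff f`, then `V(A) ≅ gal f` for one with an action of `coeff f`, a simple factor of `B`. -/
def Schur : Prop :=
  ∀ (F : Fld) (f : T.Form F) (E : Subfield K) (B : T.AV F E), TotallyReal F → T.coeff f ≤ E →
    Iso F (T.gal f) (T.rep B) → ∃ A : T.AV F (T.coeff f), Iso F (T.gal f) (T.rep A)

/-- Known (algebraic Chebotarev density theorem, Rajan): if the traces on the representations of `f` and
`A` agree for a set of places of `L` of positive upper density, then they agree on a coset of an open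
subgroup. -/
def Chebotarev : Prop :=
  ∀ (F L : Fld) (f : T.Form F) (E : Subfield K) (A : T.AV L E), FiniteGalois F L →
    PositiveUpperDensity T.norm (T.Agree f A) → ∃ L', L ≤ L' ∧ FiniteGalois F L' ∧
      ∃ g ∈ Gal L, ∀ x ∈ Gal L',
        ((T.gal f).toFun (g * x)).trace = ((T.rep A).toFun (g * x)).trace

/-- The known facts. -/
structure Facts : Prop extends T.toData.Facts where
  restrict : T.Restrict
  schur : T.Schur
  chebotarev : T.Chebotarev
  frob_mem : ∀ (L : Fld) (w : T.place L), T.frob w ∈ Gal L

end PData

end Pool.Agent.Q50.ES
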