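import Pool.Agent.Q50.ES.Coset
import Pool.Agent.Q50.ES.PDefs

/-!
# A set of places of positive density decides
-/

set_option autoImplicit false
set_option maxHeartbeats 4000000
set_option synthInstance.maxHeartbeats 400000
set_option linter.unusedSectionVars false

universe u

open NumberField Matrix

namespace Pool.Agent.Q50.ES

variable {K : Type u} [Field K] [TopologicalSpace K] [IsTopologicalRing K] [T1Space K]

/-- The monoid of the pairs of values of two representations on `Gal(Ω/L)`. -/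
def pairs {F F' L : Fld} (r : Rep K F) (s : Rep K F') (h : Gal L ⊆ Gal F) (h' : Gal L ⊆ Gal F') :
    Submonoid (Mat K × Mat K) where
  carrier := {p | ∃ x ∈ Gal L, p = (r.toFun x, s.toFun x)}
  mul_mem' := by
    rintro _ _ ⟨x, hx, rfl⟩ ⟨y, hy, rfl⟩
    refine ⟨x * y, gal_mul hx hy, ?_⟩
    rw [r.map_mul (h hx) (h hy), s.map_mul (h' hx) (h' hy)]
    rfl
  one_mem' := ⟨1, L.fixingSubgroup.one_mem, by rw [r.one, s.one]; rfl⟩

/-- If the traces agree on a coset of `Gal(Ω/L)` and the first representation is irreducible there, the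
representations are isomorphic on `Gal(Ω/L)`. -/
theorem iso_of_trace_coset {F F' L : Fld} (r : Rep K F) (s : Rep K F') (h : Gal L ⊆ Gal F)
    (h' : Gal L ⊆ Gal F') (hspan : ∀ m, m ∈ Submodule.span K {t | ∃ x ∈ Gal L, t = r.toFun x})
    {g : Γ} (hg : g ∈ Gal F) (hg' : g ∈ Gal F')
    (htr : ∀ x ∈ Gal L, (r.toFun (g * x)).trace = (s.toFun (g * x)).trace) : Iso L r s := by
  obtain ⟨P, hP⟩ := conj_of_trace_coset (pairs r s h h') (c := r.toFun g) (d := s.toFun g)
    (c' := r.toFun g⁻¹) (by
      intro m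
      refine Submodule.span_mono ?_ (hspan m)
      rintro _ ⟨x, hx, rfl⟩
      exact ⟨(r.toFun x, s.toFun x), ⟨x, hx, rfl⟩, rfl⟩) (r.inv hg).1 (by
      rintro _ ⟨x, hx, rfl⟩
      have := htr x hx
      rw [r.map_mul hg (h hx), s.map_mul hg' (h' hx)] at this
      exact this)
  exact ⟨P, fun x hx => hP _ ⟨x, hx, rfl⟩⟩

namespace PData

variable {T : PData K}

/-- **One newform.** -/
theorem associated_iff (hT : T.Facts) {F : Fld} (hF : TotallyReal F) (f : T.Form F)
    (hf : ¬ T.CM f) : T.Associated f ↔ T.Approximated f := by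
  constructor
  · intro h
    obtain ⟨A, hA⟩ := (hT.associated f hF).1 h
    refine ⟨F, ⟨le_rfl, hF.1, fun g hg x hx => ?_⟩, T.coeff f, hT.number f, le_rfl, A, 1, one_pos,
      Filter.Frequently.of_forall fun x => ?_⟩
    · have hg' : g ∈ F.fixingSubgroup := hg
      rw [IntermediateField.mem_fixingSubgroup_iff] at hg'
      rw [hg' x hx]
      exact hx
    · have h1 : T.Agree f A ∩ {w | T.norm w ≤ x} = {w | T.norm w ≤ x} := by
        refine Set.inter_eq_right.2 fun w _ => ?_
        obtain ⟨P, hP⟩ := hA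
        change ((T.gal f).toFun (T.frob w)).trace = ((T.rep A).toFun (T.frob w)).trace
        rw [hP _ (hT.frob_mem F w), trace_conj]
      rw [h1, one_mul]
  · rintro ⟨L, hFL, E, hE, hfE, A, hA⟩
    obtain ⟨L', hLL', hFL', g, hg, htr⟩ := hT.chebotarev F L f E A hFL hA
    have hiso : Iso L' (T.gal f) (T.rep A) :=
      iso_of_trace_coset _ _ (fix_le hFL'.1) (fix_le hLL') (hT.span F f hf L' hFL')
        (fix_le hFL.1 hg) hg htr
    obtain ⟨A', hA'⟩ := hT.restrict L L' E A hLL'
    obtain ⟨B, hB⟩ := Data.descend hT.toVarietyFacts hT.span hT.frobenius hFL' f hf hfE A'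
      (hiso.trans hA')
    exact (hT.associated f hF).2 (hT.schur F f E B hF hfE hB)

/-- **All newforms.** -/
theorem all_iff (hT : T.Facts) {M₀ : Fld} (hM : TotallyReal M₀) (hG : SolvableGalois M₀) :
    (∀ F, TotallyReal F → EvenDegree F → ∀ f : T.Form F,
        EvenLevel (T.level f) → T.Associated f) ↔
      ∀ F, TotallyReal F → EvenDegree F → M₀ ≤ F → ∀ f : T.Form F,
        UnitIdeal (T.level f) → ¬ T.CM f → T.Approximated f := by
  constructor
  · intro h F hF hF2 _ f hf hCM
    refine (associated_iff hT hF f hCM).1 (h F hF hF2 f fun p hp _ k hpd => ?_)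
    exfalso
    have hf' : T.level f = ⊤ := hf
    rw [hf'] at hpd
    have h1 : p ∣ ⊤ := (dvd_pow_self p (by omega)).trans hpd
    exact hp.ne_top (top_le_iff.1 (Ideal.le_of_dvd h1))
  · intro h F hF hF2 f _
    by_cases hCM : T.CM f
    · exact hT.known f hF (Or.inl hCM)
    by_cases hDS : T.DS f
    · exact hT.known f hF (Or.inr hDS)
    obtain ⟨L, hFL, hL, hL2, hML, g, hg, hgCM, hgf, hiso⟩ :=
      hT.base F M₀ hF hF2 hM hG f hCM hDS
    obtain ⟨A, hA⟩ := (hT.associated g hL).1 ((associated_iff hT hL g hgCM).2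
      (h L hL hL2 hML g hg hgCM))
    obtain ⟨A', hA'⟩ := hT.tensor L _ _ hgf (hT.number f) A
    obtain ⟨B, hB⟩ := Data.descend hT.toVarietyFacts hT.span hT.frobenius hFL f hCM le_rfl A'
      ((hiso.trans hA).trans hA')
    exact (hT.associated f hF).2 ⟨B, hB⟩

end PData

end Pool.Agent.Q50.ES
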